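import Pool.Agent.DFJ.Result

set_option autoImplicit false

namespace Pool.Agent.Results.MP_0b8c9e_gt.GenusOneTwoBridge

open Pool.Agent.DFJ LaurentPolynomial

/-- Let `K` be the genus one two-bridge knot `C(2m, 2n)`, with group
`π = ⟨a, b | a wⁿ = wⁿ b⟩`, `w = (b a⁻¹)^m (b⁻¹ a)^m`, and let `α : π → SL(2,ℂ)` be a nonabelian
representation with `tr α(a) = ± 2`, for instance a lift of the holonomy. The torsion `τ` of `α`
exists and is unique, it has degree `2 = 2 (2 genus(K) - 1)`, and it is monic if and only if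
the commutator subgroup of `π` is finitely generated, that is, if and only if `K` is fibered. -/
theorem result {m n : ℤ} (hm : m ≠ 0) (hn : n ≠ 0)
    (φ : KnotGroup m n →* Multiplicative ℤ) (hφ : Function.Surjective φ)
    (α : KnotGroup m n →* Matrix.SpecialLinearGroup (Fin 2) ℂ)
    (hpar : (mx (α (PresentedGroup.of 0))).trace ^ 2 = 4)
    (hna : α (PresentedGroup.of 0) * α (PresentedGroup.of 1) ≠
      α (PresentedGroup.of 1) * α (PresentedGroup.of 0)) :
    (∃! τ : ℂ[T;T⁻¹], IsTorsion φ α τ) ∧ ∀ τ : ℂ[T;T⁻¹], IsTorsion φ α τ →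
      HasDegree τ 2 ∧ (IsMonic τ ↔ (commutator (KnotGroup m n)).FG) :=
  genus_one hm hn φ hφ α hpar hna

end Pool.Agent.Results.MP_0b8c9e_gt.GenusOneTwoBridge
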