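import Pool.Agent.CR42.Fin

set_option autoImplicit false

namespace Pool.Agent.Results.MP_0b8c9e_gt.TwoBridgeEntryTwo

open Pool.Agent.DFJ Pool.Agent.TBK Pool.Agent.PT42 Pool.Agent.CR42

/-- Two-bridge knots: `TBGroup g a` is the group of the boundary `K` of the linear plumbing of
`2g` annuli with `a_1, …, a_{2g} ≠ 0` full twists (genus `g`). `Conj g a` says that for every
nonabelian `α` with torsion-free image and `tr α(t) = ± 2` (for instance every lift of the
holonomy) the torsion exists and is unique, has degree `2 (2g - 1)`, and is monic if and only if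
the commutator subgroup of the knot group is finitely generated (`K` is fibered).

`Conj g a` holds, and `K` is not fibered, as soon as some `a_i` is `± 2`; the other
entries are arbitrary. Hence it holds for almost all two-bridge knots ordered by crossing number:
`Seq c l` says that `l = (a_1, …, a_{2g})`, `g ≥ 1`, is a
sequence of nonzero integers with `2 ∑ |a_j| - #{j | a_j a_{j+1} > 0} = c`; this is the crossing
number of `K`. At most a fraction `16 (9/10)^c` of these sequences violates `Conj`. -/
theorem result :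
    (∀ g : ℕ, 1 ≤ g → ∀ a : ℕ → ℤ, (∀ j, 1 ≤ j → j ≤ 2 * g → a j ≠ 0) →
      (∃ i, 1 ≤ i ∧ i ≤ 2 * g ∧ |a i| = 2) → Conj g a ∧ ¬ (commutator (TBGroup g a)).FG) ∧
    ∀ c : ℕ, {l : List ℤ | Seq c l}.Finite ∧
      (Nat.card {l : List ℤ // Seq c l ∧ ¬ Conj (l.length / 2) (seq l)} : ℝ) ≤
        16 * (9 / 10) ^ c * (Nat.card {l : List ℤ // Seq c l} : ℝ) :=
  ⟨fun _ hg _ ha hw => Pool.Agent.PT51.two_conj hg ha hw, fun c => ⟨Seq_finite c, bad_le c⟩⟩

end Pool.Agent.Results.MP_0b8c9e_gt.TwoBridgeEntryTwo
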