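import Pool.Agent.HT42.Final3

set_option autoImplicit false

namespace Pool.Agent.Results.MP_0b8c9e_gt.TwoBridgeHighTwist

open Pool.Agent.DFJ Pool.Agent.TBK Pool.Agent.HT42 Filter

/-- Two-bridge knots of genus `g`: `TBGroup g a` is the group of the boundary `K` of the linear
plumbing of `2g` annuli with `a_1, …, a_{2g} ≠ 0` full twists. `Conj g a` says that for every
injective `α` with discrete image and `tr α(t) = ± 2` (for instance every lift of the holonomy)
the torsion exists and is unique, has degree `2 (2g - 1)`, and is monic if and only if the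
commutator subgroup of the knot group is finitely generated (`K` is fibered).

First part: `Conj g a` holds for all highly twisted knots, with absolute constants; these are not
fibered. Second part: for each genus the proportion of the `a` that satisfy `Conj` tends to `1`. -/
theorem result :
    (∀ g : ℕ, 1 ≤ g → ∀ a : ℕ → ℤ, (∀ j, 1 ≤ j → j ≤ 2 * g → 10 ^ 10 ≤ |a j|) →
      ((∀ j, 1 ≤ j → j ≤ 2 * g → Even (a j)) ∨ ∀ i, 1 ≤ i → i ≤ 2 * g →
        10 ^ 10 * (((Finset.Icc 1 (2 * g)).filter fun j => Even (a j)).card : ℤ) ≤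
          (((Finset.Icc 1 (2 * g)).filter fun j => ¬ Even (a j)).card : ℤ) * a i ^ 2) →
      Conj g a ∧ ¬ (commutator (TBGroup g a)).FG) ∧
    ∀ g : ℕ, 1 ≤ g → Tendsto (fun X : ℕ =>
      (Nat.card {a : Fin (2 * g) → ℤ // (∀ j, a j ≠ 0 ∧ |a j| ≤ (X : ℤ)) ∧ Conj g (ext g a)} : ℝ) /
        (Nat.card {a : Fin (2 * g) → ℤ // ∀ j, a j ≠ 0 ∧ |a j| ≤ (X : ℤ)} : ℝ)) atTop (nhds 1) := by
  refine ⟨fun g hg a ha hE => ?_, fun g hg => ?_⟩
  · refine high_twist hg ha ?_
    rcases hE with h | h
    · exact Or.inl h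
    · refine Or.inr fun i h1 h2 => ?_
      convert h i h1 h2 using 3
  · exact density (by omega) (10 ^ 10 * (2 * g)) {a | Conj g (ext g a)}
      fun a ha => conj_ext hg ha

end Pool.Agent.Results.MP_0b8c9e_gt.TwoBridgeHighTwist
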