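import Pool.Agent.TBK.Final2

set_option autoImplicit false

namespace Pool.Agent.Results.MP_0b8c9e_gt.TwoBridgeLargeField

open Pool.Agent.DFJ Pool.Agent.TBK LaurentPolynomial

/-- Two-bridge knots of genus `g`: `TBGroup g a` is the group of the boundary `K` of the linear
plumbing of `2g` annuli with `a_1, …, a_{2g} ≠ 0` full twists, `det K = |d_{2g+1}|`. Let `α` be a
nonabelian representation with parabolic meridians and torsion-free image (for instance a lift of
the holonomy), and let `D` be the degree of the trace of `α(x)`, which generates the trace field.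
It is at most `(det K - 1) / 2`, with equality if and only if Riley's polynomial is irreducible.
Suppose that the trace field has a real place (the minimal polynomial of the trace of `α(x)` has a
real root), or that `D > bd a g`, or that `D > 2 (det K - 1) / 5`, or that `det K` is coprime to
`4^e - 1` for `1 ≤ e ≤ bd a g`. Then the torsion of `α` exists and is unique, it has degree
`2 (2g - 1)`, and it is monic if and only if the commutator subgroup of the knot group is
finitely generated (that is, `K` is fibered). -/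
theorem result (g : ℕ) (hg : 1 ≤ g) (a : ℕ → ℤ) (ha : ∀ j, 1 ≤ j → j ≤ 2 * g → a j ≠ 0)
    (φ : TBGroup g a →* Multiplicative ℤ) (hφ : Function.Surjective φ)
    (α : TBGroup g a →* SLC) (hα : Good α) (D : ℕ)
    (hD : (minpoly ℚ (mx (α (PresentedGroup.of 0))).trace).natDegree = D)
    (h : (∃ r : ℝ,
        Polynomial.aeval r (minpoly ℚ (mx (α (PresentedGroup.of 0))).trace) = 0) ∨
      bd a g < D ∨ 2 * ((dd a (2 * g + 1)).natAbs - 1) < 5 * D ∨
      ∀ e, 1 ≤ e → e ≤ bd a g → (dd a (2 * g + 1)).natAbs.Coprime (4 ^ e - 1)) :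
    (∃! τ : ℂ[T;T⁻¹], IsTorsion φ α τ) ∧ ∀ τ : ℂ[T;T⁻¹], IsTorsion φ α τ →
      HasDegree τ (2 * (2 * g - 1)) ∧ (IsMonic τ ↔ (commutator (TBGroup g a)).FG) := by
  rcases h with h | h
  · obtain ⟨h1, h2⟩ := part_one hg ha hφ hα
    exact ⟨h1, fun τ hτ => ⟨(h2 τ hτ).1, (h2 τ hτ).2.2.2 h⟩⟩
  · exact part_four hg ha hφ hα hD h

end Pool.Agent.Results.MP_0b8c9e_gt.TwoBridgeLargeField
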